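import Pool.Agent.H60.HIT.INA

/-!
# Analyticity in the time of the flow of a map which is the identity modulo `p`
-/

open MvPolynomial
open Pool.Agent.H12.ZD (pmap v O v_nonneg v_mul v_pow v_natCast_le v_natCast_eq v_self_lt v_sum_le
  v_sum_lt v_pos v_neg v_self)
open Pool.Agent.H18.HIT

namespace Pool.Agent.H60.HIT

variable {N : ℕ} (p : Nat.Primes)

theorem eval_diff (H : Tup N (O p)) (c : Po N (O p)) (z : Fin N → O p) (M : ℕ)
    (h : ∀ n, eval z ((AA p H ^ (M * n)) c) = 0) (r n : ℕ) :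
    eval z ((AA p H ^ (M * n)) (((AA p H ^ M - 1) ^ r) c)) = 0 := by
  induction r generalizing n with
  | zero => exact h n
  | succ r ih =>
    have h1 : (AA p H ^ (M * n)) (((AA p H ^ M - 1) ^ (r + 1)) c) =
        (AA p H ^ (M * (n + 1))) (((AA p H ^ M - 1) ^ r) c) -
        (AA p H ^ (M * n)) (((AA p H ^ M - 1) ^ r) c) := by
      have h2 : (AA p H ^ M - 1) (((AA p H ^ M - 1) ^ r) c) =
          (AA p H ^ M) (((AA p H ^ M - 1) ^ r) c) - ((AA p H ^ M - 1) ^ r) c := rfl
      rw [pow_succ', Module.End.mul_apply, h2, map_sub, mul_add, mul_one, pow_add,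
        Module.End.mul_apply]
    rw [h1, map_sub, ih, ih, sub_zero]

theorem eval_poly (H : Tup N (O p)) (c : Po N (O p)) (z : Fin N → O p) (P : Polynomial ℤ)
    (B : ℕ) (hB : P.natDegree < B) :
    ((eval z ((Polynomial.aeval (AA p H - 1) P) c) : O p) : Qb) =
      ∑ i ∈ Finset.range B, (P.coeff i : Qb) * ((bb p H c z i : O p) : Qb) := by
  rw [Polynomial.aeval_eq_sum_range' hB, LinearMap.sum_apply, map_sum]
  push_cast
  apply Finset.sum_congr rfl
  intro i _
  have h1 : (P.coeff i • (AA p H - 1) ^ i) c = (P.coeff i : O p) • (((AA p H - 1) ^ i) c) := by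
    rw [LinearMap.smul_apply, ← Int.cast_smul_eq_zsmul (O p)]
  rw [h1, smul_eval]
  push_cast
  rfl

theorem coeff_facts (M r : ℕ) :
    (∀ i < r, (((1 + Polynomial.X) ^ M - 1) ^ r : Polynomial ℤ).coeff i = 0) ∧
    (((1 + Polynomial.X) ^ M - 1) ^ r : Polynomial ℤ).coeff r = (M : ℤ) ^ r := by
  obtain ⟨Q, hQ⟩ : (Polynomial.X : Polynomial ℤ) ∣ (1 + Polynomial.X) ^ M - 1 := by
    have h := sub_dvd_pow_sub_pow (1 + Polynomial.X : Polynomial ℤ) 1 M
    rwa [add_sub_cancel_left, one_pow] at h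
  have h0 : Q.coeff 0 = (M : ℤ) := by
    have h1 : ((1 + Polynomial.X) ^ M - 1 : Polynomial ℤ).coeff 1 = Q.coeff 0 := by
      rw [hQ]
      exact Polynomial.coeff_X_mul Q 0
    rw [← h1, Polynomial.coeff_sub, Polynomial.coeff_one_add_X_pow, Polynomial.coeff_one]
    simp
  rw [hQ, mul_pow]
  constructor
  · intro i hi
    rw [Polynomial.coeff_X_pow_mul', if_neg (by omega)]
  · rw [Polynomial.coeff_X_pow_mul', if_pos le_rfl, Nat.sub_self, Polynomial.coeff_zero_eq_eval_zero,
      Polynomial.eval_pow, ← Polynomial.coeff_zero_eq_eval_zero, h0]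

theorem all_zero (hBIN : T_BIN) (H : Tup N (O p)) (c : Po N (O p)) (z : Fin N → O p) (M : ℕ)
    (hp : 3 ≤ (p : ℕ)) (hM : 1 ≤ M)
    (h : ∀ n, eval ((pmap (fl p H))^[M * n] z) c = 0) (j : ℕ) : bb p H c z j = 0 := by
  by_contra hj0
  set w : ℕ → ℝ := fun j => v p ((bb p H c z j : O p) : Qb) ^ 2 * ((p : ℕ) : ℝ) ^ j with hw
  have hp0 : (0 : ℝ) < ((p : ℕ) : ℝ) := by exact_mod_cast p.2.pos
  have hp1 : (1 : ℝ) < ((p : ℕ) : ℝ) := by exact_mod_cast p.2.one_lt
  have hwle : ∀ i, w i ≤ (((p : ℕ) : ℝ)⁻¹) ^ i := by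
    intro i
    have h1 := v_bb p H c z i
    rw [v_self] at h1
    calc w i ≤ ((((p : ℕ) : ℝ)⁻¹) ^ i) ^ 2 * ((p : ℕ) : ℝ) ^ i := by
          apply mul_le_mul_of_nonneg_right _ (by positivity)
          exact pow_le_pow_left₀ (v_nonneg p _) h1 2
      _ = (((p : ℕ) : ℝ)⁻¹) ^ i := by
          rw [sq, mul_assoc, ← mul_pow, inv_mul_cancel₀ hp0.ne', one_pow, mul_one]
  have hwj : 0 < w j := by
    have h1 : 0 < v p ((bb p H c z j : O p) : Qb) := by
      apply (v_pos p).2
      intro h2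
      exact hj0 (Subtype.ext h2)
    positivity
  obtain ⟨K, hK⟩ := exists_pow_lt_of_lt_one hwj (inv_lt_one_of_one_lt₀ hp1)
  have hK2 : ∀ i, K ≤ i → w i < w j := by
    intro i hi
    calc w i ≤ (((p : ℕ) : ℝ)⁻¹) ^ i := hwle i
      _ ≤ (((p : ℕ) : ℝ)⁻¹) ^ K :=
        pow_le_pow_of_le_one (by positivity) (inv_lt_one_of_one_lt₀ hp1).le hi
      _ < w j := hK
  classical
  obtain ⟨m, hm1, hm2⟩ := Finset.exists_max_image (Finset.range (K + j + 1)) w
    ⟨j, Finset.mem_range.2 (by omega)⟩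
  have hjm : w j ≤ w m := hm2 j (Finset.mem_range.2 (by omega))
  set S := (Finset.range (K + j + 1)).filter fun i => w i = w m with hS
  have hSne : S.Nonempty := ⟨m, Finset.mem_filter.2 ⟨hm1, rfl⟩⟩
  set r := S.max' hSne with hr
  have hrS : r ∈ S := S.max'_mem hSne
  have hwr : w r = w m := (Finset.mem_filter.1 hrS).2
  have hlt : ∀ i, r < i → w i < w r := by
    intro i hi
    rw [hwr]
    by_cases hiK : i < K + j + 1
    · apply lt_of_le_of_ne (hm2 i (Finset.mem_range.2 hiK))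
      intro he
      have h1 : i ∈ S := Finset.mem_filter.2 ⟨Finset.mem_range.2 hiK, he⟩
      exact absurd (S.le_max' i h1) (by omega)
    · exact (hK2 i (by omega)).trans_le hjm
  have hwr0 : 0 < w r := by
    rw [hwr]
    exact hwj.trans_le hjm
  have hbr : 0 < v p ((bb p H c z r : O p) : Qb) := by
    rcases (v_nonneg p ((bb p H c z r : O p) : Qb)).lt_or_eq with h1 | h1
    · exact h1
    · exfalso
      have h2 : w r = 0 := by
        simp only [hw, ← h1]
        ring
      exact absurd h2 hwr0.ne'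
  have hvM : 0 < v p (M : Qb) := by
    apply (v_pos p).2
    exact_mod_cast (by omega : M ≠ 0)
  -- the relation
  set P : Polynomial ℤ := ((1 + Polynomial.X) ^ M - 1) ^ r with hP
  obtain ⟨hc1, hc2⟩ := coeff_facts M r
  have hrel : ∑ i ∈ Finset.range (P.natDegree + r + 1),
      (P.coeff i : Qb) * ((bb p H c z i : O p) : Qb) = 0 := by
    rw [← eval_poly p H c z P _ (by omega)]
    have h1 : Polynomial.aeval (AA p H - 1) P = (AA p H ^ M - 1) ^ r := by
      rw [hP, map_pow, map_sub, map_pow, map_add, map_one, Polynomial.aeval_X,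
        add_sub_cancel]
    have h2 := eval_diff p H c z M (fun n => by rw [← eval_iter]; exact h n) r 0
    rw [Nat.mul_zero, pow_zero] at h2
    rw [h1]
    have h3 : eval z (((AA p H ^ M - 1) ^ r) c) = 0 := h2
    rw [h3]
    rfl
  have hmem : r ∈ Finset.range (P.natDegree + r + 1) := Finset.mem_range.2 (by omega)
  rw [← Finset.add_sum_erase _ _ hmem] at hrel
  have hterm : v p ((P.coeff r : Qb) * ((bb p H c z r : O p) : Qb)) =
      v p (M : Qb) ^ r * v p ((bb p H c z r : O p) : Qb) := by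
    rw [v_mul, hc2]
    push_cast
    rw [v_pow]
  have hpos : 0 < v p ((P.coeff r : Qb) * ((bb p H c z r : O p) : Qb)) := by
    rw [hterm]
    positivity
  have hsum : v p (∑ i ∈ (Finset.range (P.natDegree + r + 1)).erase r,
      (P.coeff i : Qb) * ((bb p H c z i : O p) : Qb)) <
      v p ((P.coeff r : Qb) * ((bb p H c z r : O p) : Qb)) := by
    apply v_sum_lt p _ _ hpos
    intro i hi
    have hir : i ≠ r := (Finset.mem_erase.1 hi).1
    rcases lt_or_gt_of_ne hir with h1 | h1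
    · rw [hc1 i h1, Int.cast_zero, zero_mul, Pool.Agent.H12.ZD.v_zero]
      exact hpos
    · obtain ⟨k, rfl⟩ : ∃ k, i = r + k := ⟨i - r, by omega⟩
      have h2 := hBIN p M r k hp hM
      rw [← hP] at h2
      apply lt_of_pow_lt_pow_left₀ 2 hpos.le
      rw [hterm, v_mul, mul_pow, mul_pow]
      have h3 := hlt (r + k) (by omega)
      simp only [hw] at h3
      have h4 : v p ((bb p H c z (r + k) : O p) : Qb) ^ 2 * ((p : ℕ) : ℝ) ^ k <
          v p ((bb p H c z r : O p) : Qb) ^ 2 := by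
        have h5 : (v p ((bb p H c z (r + k) : O p) : Qb) ^ 2 * ((p : ℕ) : ℝ) ^ k) *
            ((p : ℕ) : ℝ) ^ r < v p ((bb p H c z r : O p) : Qb) ^ 2 * ((p : ℕ) : ℝ) ^ r := by
          rw [mul_assoc, ← pow_add, Nat.add_comm k r]
          exact h3
        exact lt_of_mul_lt_mul_right h5 (by positivity)
      calc v p (P.coeff (r + k) : Qb) ^ 2 * v p ((bb p H c z (r + k) : O p) : Qb) ^ 2
          ≤ (v p (M : Qb) ^ (2 * r) * ((p : ℕ) : ℝ) ^ k) *
            v p ((bb p H c z (r + k) : O p) : Qb) ^ 2 :=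
            mul_le_mul_of_nonneg_right h2 (by positivity)
        _ = v p (M : Qb) ^ (2 * r) * (v p ((bb p H c z (r + k) : O p) : Qb) ^ 2 *
            ((p : ℕ) : ℝ) ^ k) := by ring
        _ < v p (M : Qb) ^ (2 * r) * v p ((bb p H c z r : O p) : Qb) ^ 2 :=
            mul_lt_mul_of_pos_left h4 (by positivity)
        _ = (v p (M : Qb) ^ r) ^ 2 * v p ((bb p H c z r : O p) : Qb) ^ 2 := by
            rw [← pow_mul, Nat.mul_comm]
  have h9 : (P.coeff r : Qb) * ((bb p H c z r : O p) : Qb) =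
      -∑ i ∈ (Finset.range (P.natDegree + r + 1)).erase r,
        (P.coeff i : Qb) * ((bb p H c z i : O p) : Qb) := eq_neg_of_add_eq_zero_left hrel
  rw [h9, v_neg] at hsum
  exact lt_irrefl _ hsum

theorem pf_INB (hBIN : T_BIN) : T_INB := by
  intro N p H c z M hp hM h n
  rw [eval_iter_eq]
  apply Finset.sum_eq_zero
  intro j _
  rw [all_zero p hBIN H c z M hp hM h j, mul_zero]

end Pool.Agent.H60.HIT
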