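import Pool.Agent.H18.HIT.Targets

/-!
# Continuity in the time of the flow of a map which is the identity modulo `p`
-/

open MvPolynomial
open Pool.Agent.H12.ZD (pmap v O v_nonneg v_mul v_pow v_natCast_le v_natCast_eq v_self_lt v_sum_le)
open Pool.Agent.H18.HIT

namespace Pool.Agent.H60.HIT

variable {N : ℕ} (p : Nat.Primes)

/-- composition with `fl p H` -/
noncomputable def AA (H : Tup N (O p)) : Module.End (O p) (Po N (O p)) :=
  (aeval (fl p H) : Po N (O p) →ₐ[O p] Po N (O p)).toLinearMap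

theorem AA_apply (H : Tup N (O p)) (c : Po N (O p)) : AA p H c = aeval (fl p H) c := rfl

theorem AA_sub (H : Tup N (O p)) (c : Po N (O p)) :
    ∃ d : Po N (O p), AA p H c - c = ((p : ℕ) : O p) • d := by
  set I : Ideal (Po N (O p)) := Ideal.span {C ((p : ℕ) : O p)} with hI
  have h : (Ideal.Quotient.mk I).comp
      (aeval (fl p H) : Po N (O p) →ₐ[O p] Po N (O p)).toRingHom = Ideal.Quotient.mk I := by
    apply MvPolynomial.ringHom_ext
    · intro a
      rw [RingHom.comp_apply]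
      congr 1
      exact (aeval (fl p H) : Po N (O p) →ₐ[O p] Po N (O p)).commutes a
    · intro i
      rw [RingHom.comp_apply]
      apply Ideal.Quotient.eq.2
      have h1 : (aeval (fl p H) : Po N (O p) →ₐ[O p] Po N (O p)) (X i) - X i ∈ I := by
        rw [aeval_X]
        unfold fl
        rw [add_sub_cancel_left]
        exact Ideal.mul_mem_right _ _ (Ideal.subset_span rfl)
      exact h1
  have h2 := DFunLike.congr_fun h c
  have h3 := Ideal.Quotient.eq.1 h2
  obtain ⟨d, hd⟩ := Ideal.mem_span_singleton'.1 h3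
  refine ⟨d, ?_⟩
  rw [smul_eq_C_mul, mul_comm]
  exact hd.symm

theorem Del_pow (H : Tup N (O p)) (c : Po N (O p)) (j : ℕ) :
    ∃ d : Po N (O p), ((AA p H - 1) ^ j) c = (((p : ℕ) : O p) ^ j) • d := by
  induction j with
  | zero => exact ⟨c, by rw [pow_zero, pow_zero, one_smul]; rfl⟩
  | succ j ih =>
    obtain ⟨d, hd⟩ := ih
    obtain ⟨e, he⟩ := AA_sub p H d
    refine ⟨e, ?_⟩
    rw [pow_succ', Module.End.mul_apply, hd, map_smul]
    have h1 : (AA p H - 1) d = AA p H d - d := rfl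
    rw [h1, he, smul_smul, pow_succ]

/-- the values of the differences -/
noncomputable def bb (H : Tup N (O p)) (c : Po N (O p)) (z : Fin N → O p) (j : ℕ) : O p :=
  eval z (((AA p H - 1) ^ j) c)

theorem v_bb (H : Tup N (O p)) (c : Po N (O p)) (z : Fin N → O p) (j : ℕ) :
    v p ((bb p H c z j : O p) : Qb) ≤ v p ((p : ℕ) : Qb) ^ j := by
  obtain ⟨d, hd⟩ := Del_pow p H c j
  have h1 : bb p H c z j = ((p : ℕ) : O p) ^ j * eval z d := by
    unfold bb
    rw [hd, smul_eval]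
  have h2 : ((bb p H c z j : O p) : Qb) = ((p : ℕ) : Qb) ^ j * ((eval z d : O p) : Qb) := by
    rw [h1]
    push_cast
    rfl
  rw [h2, v_mul, v_pow]
  calc v p ((p : ℕ) : Qb) ^ j * v p ((eval z d : O p) : Qb)
      ≤ v p ((p : ℕ) : Qb) ^ j * 1 :=
        mul_le_mul_of_nonneg_left (eval z d).2 (pow_nonneg (v_nonneg p _) _)
    _ = v p ((p : ℕ) : Qb) ^ j := mul_one _

theorem eval_iter (H : Tup N (O p)) (c : Po N (O p)) (n : ℕ) (z : Fin N → O p) :
    eval ((pmap (fl p H))^[n] z) c = eval z ((AA p H ^ n) c) := by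
  induction n generalizing z with
  | zero => rfl
  | succ n ih =>
    rw [Function.iterate_succ_apply, ih, ← eval_aeval, pow_succ', Module.End.mul_apply]
    rfl

theorem eval_iter_eq (H : Tup N (O p)) (c : Po N (O p)) (n : ℕ) (z : Fin N → O p) :
    eval ((pmap (fl p H))^[n] z) c =
      ∑ j ∈ Finset.range (n + 1), (n.choose j : O p) * bb p H c z j := by
  have h1 : AA p H ^ n = ∑ j ∈ Finset.range (n + 1), (AA p H - 1) ^ j * 1 ^ (n - j) *
      ((n.choose j : ℕ) : Module.End (O p) (Po N (O p))) := by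
    rw [← (Commute.one_right (AA p H - 1)).add_pow n, sub_add_cancel]
  rw [eval_iter, h1, LinearMap.sum_apply, map_sum]
  apply Finset.sum_congr rfl
  intro j _
  have h2 : ((AA p H - 1) ^ j * 1 ^ (n - j) *
      ((n.choose j : ℕ) : Module.End (O p) (Po N (O p)))) c =
      (n.choose j : O p) • ((AA p H - 1) ^ j) c := by
    rw [one_pow, mul_one, Module.End.mul_apply, Module.End.natCast_apply, map_nsmul,
      ← Nat.cast_smul_eq_nsmul (O p)]
  rw [h2, smul_eval]
  rfl

theorem v_pow_le_v {j : ℕ} (hj : 1 ≤ j) : v p ((p : ℕ) : Qb) ^ j ≤ v p (j : Qb) := by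
  obtain ⟨a, m, hm, hjm⟩ := Nat.exists_eq_pow_mul_and_not_dvd (n := j) (by omega) (p : ℕ)
    p.2.one_lt.ne'
  have h1 : v p (j : Qb) = v p ((p : ℕ) : Qb) ^ a := by
    rw [hjm, Nat.cast_mul, Nat.cast_pow, v_mul, v_pow, v_natCast_eq p hm, mul_one]
  have h2 : a ≤ j := by
    have h3 : m ≠ 0 := by
      rintro rfl
      exact hm (dvd_zero _)
    have h4 : (p : ℕ) ^ a ≤ j := by
      rw [hjm]
      exact Nat.le_mul_of_pos_right _ (Nat.pos_of_ne_zero h3)
    exact (Nat.lt_pow_self p.2.one_lt).le.trans h4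
  rw [h1]
  exact pow_le_pow_of_le_one (v_nonneg p _) (v_self_lt p).le h2

theorem v_choose {n j : ℕ} (hj : j < n) :
    v p ((n.choose (j + 1) : ℕ) : Qb) * v p ((j + 1 : ℕ) : Qb) ≤ v p (n : Qb) := by
  obtain ⟨m, rfl⟩ : ∃ m, n = m + 1 := ⟨n - 1, by omega⟩
  rw [← v_mul, ← Nat.cast_mul, ← Nat.add_one_mul_choose_eq, Nat.cast_mul, v_mul]
  calc v p ((m + 1 : ℕ) : Qb) * v p ((m.choose j : ℕ) : Qb)
      ≤ v p ((m + 1 : ℕ) : Qb) * 1 :=
        mul_le_mul_of_nonneg_left (v_natCast_le p _) (v_nonneg p _)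
    _ = v p ((m + 1 : ℕ) : Qb) := mul_one _

theorem pf_INA : T_INA := by
  intro N p H c z n _
  have h1 : ((eval ((pmap (fl p H))^[n] z) c : O p) : Qb) - ((eval z c : O p) : Qb) =
      ∑ j ∈ Finset.range n, ((n.choose (j + 1) : ℕ) : Qb) *
        ((bb p H c z (j + 1) : O p) : Qb) := by
    have h2 := eval_iter_eq p H c n z
    rw [Finset.sum_range_succ'] at h2
    have h3 : bb p H c z 0 = eval z c := rfl
    rw [h3, Nat.choose_zero_right, Nat.cast_one, one_mul] at h2
    rw [h2]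
    push_cast
    rw [add_sub_cancel_right]
  rw [h1]
  apply v_sum_le p _ _ (v_nonneg p _)
  intro j hj
  have hj' := Finset.mem_range.1 hj
  rw [v_mul]
  calc v p ((n.choose (j + 1) : ℕ) : Qb) * v p ((bb p H c z (j + 1) : O p) : Qb)
      ≤ v p ((n.choose (j + 1) : ℕ) : Qb) * v p ((p : ℕ) : Qb) ^ (j + 1) :=
        mul_le_mul_of_nonneg_left (v_bb p H c z (j + 1)) (v_nonneg p _)
    _ ≤ v p ((n.choose (j + 1) : ℕ) : Qb) * v p ((j + 1 : ℕ) : Qb) :=
        mul_le_mul_of_nonneg_left (v_pow_le_v p (by omega)) (v_nonneg p _)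
    _ ≤ v p (n : Qb) := v_choose p hj'

end Pool.Agent.H60.HIT
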