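import Pool.Agent.H18.HIT.Targets

/-!
# An irreducible monic polynomial is separable
-/

open Polynomial

namespace Pool.Agent.H60.HIT

theorem pf_SEP : Pool.Agent.H18.HIT.T_SEP := by
  intro A _ _ _ _ Φ hΦ hirr
  set F := FractionRing A
  have hirrF : Irreducible (Φ.map (algebraMap A F)) :=
    (hΦ.irreducible_iff_irreducible_map_fraction_map (K := F)).1 hirr
  haveI : CharZero F := charZero_of_injective_algebraMap (IsFractionRing.injective A F)
  obtain ⟨u, v, huv⟩ := hirrF.separable
  obtain ⟨b1, h1⟩ := IsLocalization.integerNormalization_map_to_map (nonZeroDivisors A) u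
  obtain ⟨b2, h2⟩ := IsLocalization.integerNormalization_map_to_map (nonZeroDivisors A) v
  refine ⟨C (b2 : A) * IsLocalization.integerNormalization (nonZeroDivisors A) u,
    C (b1 : A) * IsLocalization.integerNormalization (nonZeroDivisors A) v, (b1 : A) * b2,
    mul_ne_zero (nonZeroDivisors.coe_ne_zero b1) (nonZeroDivisors.coe_ne_zero b2), ?_⟩
  apply Polynomial.map_injective (algebraMap A F) (IsFractionRing.injective A F)
  have hs : ∀ (a : A) (q : F[X]), a • q = C (algebraMap A F a) * q := by
    intro a q
    rw [← algebraMap_smul F a q, smul_eq_C_mul]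
  rw [Polynomial.map_add, Polynomial.map_mul, Polynomial.map_mul, Polynomial.map_mul,
    Polynomial.map_mul, map_C, map_C, map_C, h1, h2, hs, hs, ← derivative_map, map_mul]
  calc C ((algebraMap A F) (b2 : A)) * (C ((algebraMap A F) (b1 : A)) * u) *
        map (algebraMap A F) Φ + C ((algebraMap A F) (b1 : A)) *
        (C ((algebraMap A F) (b2 : A)) * v) * derivative (map (algebraMap A F) Φ)
      = C ((algebraMap A F) (b2 : A)) * C ((algebraMap A F) (b1 : A)) *
        (u * map (algebraMap A F) Φ + v * derivative (map (algebraMap A F) Φ)) := by ring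
    _ = C ((algebraMap A F) (b1 : A) * (algebraMap A F) (b2 : A)) := by
        rw [huv, mul_one, map_mul, mul_comm]

end Pool.Agent.H60.HIT
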